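import Pool.Agent.TH766.IQ.Main

/-!
# Abundance for projective manifolds which are iterated quotients

The class `IsTower` of projective varieties over `ℂ` (given by their function fields) is the smallest
class which contains the point, the varieties of general type, the uniruled varieties, the irreducible
components of the projective varieties given by nested sums of high powers of linear forms or of
monomials, and the abelian covers of products of projective spaces over arbitrary arrangements of
hyperplanes with multiplicities at least `n i + 2`, and which contains with `Y` all quotients
`(Y × ∏ C j) / G`, for curves `C j` and finite groups `G` acting on the product and permuting the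
curves, such that `MixedPos` holds, for instance such that the fixed locus of each `g ≠ 1` on the
product of the curves is empty or of codimension at least `7`. The operation can be iterated: `G` acts
on the product, but neither on the varieties nor on the covers from which `Y` is constructed.

Then `κ (X) = ν (X)` for the projective manifolds `X` birational to the members of this class with
`K_X` pseudo-effective, and the values are given. In particular, if `K_X` is nef, then it is semiample
(by a theorem of Kawamata, which is not part of the Lean text).

The result combines the theorems on the basic classes (`Pool.Agent.TH710.ND`, helper710, and
`Pool.Agent.TH756.PN`, helper756) with the one on quotients of products of a variety and curves in the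
starting repository (`Pool.Agent.W619`), where `κ = ν` is an assumption on the variety, and with a
proof that the numerical dimension of a variety is at most its dimension (`Pool.Agent.TH766.NT`).
-/

set_option autoImplicit false
set_option linter.overlappingInstances false

open FF Pool.Agent.W619.PQ Pool.Agent.W619.TW Pool.Agent.TH766.IQ

namespace Pool.Agent.Results.MP_97d78d_ag.IteratedQuotients

/-- Let `X` be a projective manifold which is birational to a member of the class of iterated
quotients, with function field `K`, dimension `d` and number `κ`. Either `κ = -∞`, `X` is uniruled and
`K_X` is not pseudo-effective; or `κ` is a natural number `a`, `K_X` is pseudo-effective, and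
`κ (X) = ν (X) = a`: for all `b`, `κ (X) ≥ b` if and only if `b ≤ a`, and `ν (X) ≤ b` if and only if
`a ≤ b`. -/
theorem result (K : Type) [Field K] [Algebra ℂ K] (d : ℕ) (κ : WithBot ℕ) (h : IsTower K d κ) :
    (κ = ⊥ ∧ IsUniruled ℂ K d ∧ ¬ IsPsef ℂ K d (fun _ => False)) ∨
      ∃ a : ℕ, κ = a ∧ IsPsef ℂ K d (fun _ => False) ∧
        (∀ b, KodGe ℂ K d (fun _ => False) b ↔ b ≤ a) ∧
        ∀ b, NumLe ℂ K d (fun _ => False) b ↔ a ≤ b :=
  final h

end Pool.Agent.Results.MP_97d78d_ag.IteratedQuotients
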